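import Pool.Agent.Run7.h24.T.TwoC

/-!
# Two-site classes, part D (helper299, ported by helper429): the flat bound and the level bounds
-/

open Polynomial Pool.Agent.H337R2 Pool.Agent.Run7.h851.T

namespace Pool.Agent.Run7.h24.T.Two

noncomputable section

/-! ### the flat bound -/

section flat

variable {p : ℕ} [hp : Fact p.Prime]

lemma Rn_mem (n : ℕ) : (2 * X + C ((4 * n : ℕ) : ℚ)) ∈ IP p := by
  have h2 : (2 : ℚ[X]) ∈ IP p := by
    have := C_mem (p := p) (a := (2 : ℚ)) (by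
      have := padicNorm.of_int (p := p) 2
      push_cast at this
      exact this)
    rwa [map_ofNat] at this
  refine add_mem (mul_mem h2 X_mem) (C_mem ?_)
  have := padicNorm.of_int (p := p) (4 * n : ℤ)
  push_cast at this ⊢
  exact this

omit hp in
lemma not_dvd {n a b s : ℕ} (ha3 : a < p) (hb3 : 4 * n < a + 2 * p) (hab : b = a + p) (ha : a ∈ sM n) (hb : b ∈ sM n)
    (hs : s ∈ rst n a b) : ¬ (p : ℤ) ∣ (s : ℤ) - a := by
  unfold rst at hs
  rw [Finset.mem_erase, Finset.mem_erase, Finset.mem_Icc] at hs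
  rw [Finset.mem_Icc] at ha hb
  rintro ⟨c, hc⟩
  obtain ⟨hs1, hs2, hs3, hs4⟩ := hs
  have c1 : c < 2 := by
    by_contra h
    have : (p : ℤ) * 2 ≤ p * c := by
      apply mul_le_mul_of_nonneg_left (by omega) (by omega)
    omega
  have c2 : -1 < c := by
    by_contra h
    have : (p : ℤ) * c ≤ p * (-1) := by
      apply mul_le_mul_of_nonneg_left (by omega) (by omega)
    omega
  have c3 : c = 0 ∨ c = 1 := by omega
  rcases c3 with h | h <;> subst h <;> omega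

lemma ww_norm {n a b s : ℕ} (ha3 : a < p) (hb3 : 4 * n < a + 2 * p) (hab : b = a + p) (ha : a ∈ sM n) (hb : b ∈ sM n)
    (hs : s ∈ rst n a b) : padicNorm p (ww a b s)⁻¹ ≤ 1 := by
  have h2 := not_dvd ha3 hb3 hab ha hb hs
  have h3 : ¬ (p : ℤ) ∣ (s : ℤ) - b := by
    intro h
    apply h2
    have : (s : ℤ) - a = (s - b) + p := by rw [hab]; push_cast; ring
    rw [this]
    exact dvd_add h dvd_rfl
  have e1 := (padicNorm.int_eq_one_iff (p := p) _).2 h2
  have e2 := (padicNorm.int_eq_one_iff (p := p) _).2 h3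
  push_cast at e1 e2
  have e3 : padicNorm p (ww a b s) = 1 := by
    unfold ww
    rw [padicNorm.mul, e1, e2, one_mul]
  rw [← one_div, padicNorm.div, padicNorm.one, e3, div_one]

omit hp in
lemma sub_one_dvd (x : ℚ[X]) (k : ℕ) : x - 1 ∣ x ^ k - 1 := by
  have := sub_dvd_pow_sub_pow x 1 k
  rwa [one_pow] at this

/-- the inverse of the other linear factors modulo `T^8` -/
def Jp (n a b : ℕ) : ℚ[X] := ∏ s ∈ rst n a b, io a b s ^ 64

lemma Jp_mem {n a b : ℕ} (ha3 : a < p) (hb3 : 4 * n < a + 2 * p) (hab : b = a + p) (ha : a ∈ sM n) (hb : b ∈ sM n) :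
    Jp n a b ∈ IP p :=
  prod_mem fun s hs => pow_mem (io_mem (ww_norm ha3 hb3 hab ha hb hs)) _

omit hp in
lemma QJ (n a b : ℕ) : (sit b * sit a) ^ 64 ∣ QQ (rst n a b) mM * Jp n a b - 1 := by
  unfold Jp QQ
  rw [← Finset.prod_mul_distrib]
  refine Finset.prod_induction _ (fun f => (sit b * sit a) ^ 64 ∣ f - 1) ?_ ?_ ?_
  · rintro f g ⟨c, hc⟩ ⟨d, hd⟩
    exact ⟨f * d + c, by linear_combination f * hd + hc⟩
  · rw [sub_self]; exact dvd_zero _
  · intro s hs
    unfold rst at hs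
    rw [Finset.mem_erase, Finset.mem_erase] at hs
    change (sit b * sit a) ^ 64 ∣ sit s ^ 64 * io a b s ^ 64 - 1
    rw [← mul_pow, io_mul hs.2.1 hs.1]
    generalize hy : (C (ww a b s)⁻¹ * (sit b * sit a)) ^ 64 = y
    have h0 : (sit b * sit a) ^ 64 ∣ (1 - y) - 1 := by
      rw [← hy]
      exact ⟨-(C (ww a b s)⁻¹) ^ 64, by ring⟩
    exact dvd_trans h0 (sub_one_dvd (1 - y) 64)

omit hp in
/-- replacement of the other poles -/
lemma Ph_pair (n a b : ℕ) (hab : a < b) (ha : a ∈ sM n) (hb : b ∈ sM n) (g : ℚ[X]) {k : ℕ} (hk : k = a ∨ k = b) :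
    Ph n k g = pa {a, b} mM (PM n * g * Jp n a b) k 1 := by
  rw [Ph_eq]
  unfold pa
  rw [if_pos (show 1 ≤ 64 by norm_num)]
  change _ = PowerSeries.coeff 63 (TS (-(k : ℚ)) (PM n * g * Jp n a b) * VV (({a, b} : Finset ℕ).erase k) mM (-(k : ℚ)))
  have hV : VV ((sM n).erase k) mM (-(k : ℚ)) =
      VV (({a, b} : Finset ℕ).erase k) mM (-(k : ℚ)) * VV (rst n a b) mM (-(k : ℚ)) := by
    rcases hk with rfl | rfl
    · have e1 : ({k, b} : Finset ℕ).erase k = {b} := by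
        ext x; simp only [Finset.mem_erase, Finset.mem_insert, Finset.mem_singleton]; omega
      rw [e1]
      unfold VV rst
      rw [Finset.prod_singleton]
      exact (Finset.mul_prod_erase _ (fun m : ℕ => iv (-(k : ℚ) + m) ^ mM m) (Finset.mem_erase.2 ⟨hab.ne', hb⟩)).symm
    · have e1 : ({a, k} : Finset ℕ).erase k = {a} := by
        ext x; simp only [Finset.mem_erase, Finset.mem_insert, Finset.mem_singleton]; omega
      rw [e1]
      unfold VV rst
      rw [Finset.prod_singleton, Finset.erase_right_comm]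
      exact (Finset.mul_prod_erase _ (fun m : ℕ => iv (-(k : ℚ) + m) ^ mM m) (Finset.mem_erase.2 ⟨hab.ne, ha⟩)).symm
  obtain ⟨c, hc⟩ := QJ n a b
  have h1 : TS (-(k : ℚ)) (QQ (rst n a b) mM) * VV (rst n a b) mM (-(k : ℚ)) = 1 := by
    apply TS_QQ_mul_VV
    intro m hm _ h0
    have h3 : (m : ℚ) = k := by linarith
    have h4 : m = k := by exact_mod_cast h3
    unfold rst at hm
    rw [Finset.mem_erase, Finset.mem_erase] at hm
    rcases hk with h | h
    · exact hm.2.1 (h4.trans h)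
    · exact hm.1 (h4.trans h)
  obtain ⟨z, hz⟩ : ∃ z, TS (-(k : ℚ)) ((sit b * sit a) ^ 64 * c) = PowerSeries.X ^ 64 * z := by
    rw [(TS (-(k : ℚ))).map_mul, mul_pow, (TS (-(k : ℚ))).map_mul, (TS (-(k : ℚ))).map_pow,
      (TS (-(k : ℚ))).map_pow]
    rcases hk with rfl | rfl
    · rw [TS_sit k]; exact ⟨TS (-(k : ℚ)) (sit b) ^ 64 * TS (-(k : ℚ)) c, by ring⟩
    · rw [TS_sit k]; exact ⟨TS (-(k : ℚ)) (sit a) ^ 64 * TS (-(k : ℚ)) c, by ring⟩
  have h2 : TS (-(k : ℚ)) (QQ (rst n a b) mM) * TS (-(k : ℚ)) (Jp n a b) = 1 + PowerSeries.X ^ 64 * z := by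
    rw [← (TS (-(k : ℚ))).map_mul, ← hz, ← hc, map_sub, map_one]
    ring
  have h3 : VV (rst n a b) mM (-(k : ℚ)) = TS (-(k : ℚ)) (Jp n a b) -
      PowerSeries.X ^ 64 * (z * VV (rst n a b) mM (-(k : ℚ))) := by
    linear_combination (TS (-(k : ℚ)) (Jp n a b)) * h1 - (VV (rst n a b) mM (-(k : ℚ))) * h2
  have h4 : TS (-(k : ℚ)) (PM n * g) * VV ((sM n).erase k) mM (-(k : ℚ)) =
      TS (-(k : ℚ)) (PM n * g * Jp n a b) * VV (({a, b} : Finset ℕ).erase k) mM (-(k : ℚ)) -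
      PowerSeries.X ^ 64 * (z * VV (rst n a b) mM (-(k : ℚ)) * TS (-(k : ℚ)) (PM n * g) *
        VV (({a, b} : Finset ℕ).erase k) mM (-(k : ℚ))) := by
    rw [hV, (TS (-(k : ℚ))).map_mul (PM n * g)]
    linear_combination (TS (-(k : ℚ)) (PM n * g) * VV (({a, b} : Finset ℕ).erase k) mM (-(k : ℚ))) * h3
  rw [h4, map_sub, PowerSeries.coeff_X_pow_mul', if_neg (by norm_num), sub_zero]

/-- sum of the two residues -/
def Sp (a b : ℕ) : ℚ[X] →ₗ[ℚ] ℚ where
  toFun G := pa {a, b} mM G a 1 + pa {a, b} mM G b 1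
  map_add' f g := by rw [pa_add, pa_add]; ring
  map_smul' c f := by rw [smul_eq_C_mul, pa_C_mul, pa_C_mul, RingHom.id_apply, smul_eq_mul]; ring

omit hp in
lemma bl_natDegree (a b l : ℕ) : (bl a b l).natDegree ≤ l := by
  induction l with
  | zero => simp [bl]
  | succ l ih =>
    rw [bl_succ]
    refine Polynomial.natDegree_mul_le.trans ?_
    apply Nat.add_le_add ih
    split_ifs <;> exact (Polynomial.natDegree_X_add_C _).le

omit hp in
lemma Sp_low {a b : ℕ} (hab : a < b) {l : ℕ} (hl : l ≤ 126) : Sp a b (bl a b l) = 0 := by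
  have h := residue_sum ({a, b} : Finset ℕ) mM (bl a b l) (by
    rw [QQ_natDegree, Finset.sum_pair hab.ne]
    have := bl_natDegree a b l
    show _ ≤ 64 + 64
    omega)
  rw [Finset.sum_pair hab.ne] at h
  exact h

omit hp in
lemma pa_two_a {a b : ℕ} (hab : a < b) (G : ℚ[X]) : pa {a, b} mM G a 1 =
    PowerSeries.coeff 63 (TS (-(a : ℚ)) G * iv (-(a : ℚ) + b) ^ 64) := by
  unfold pa
  rw [if_pos (show 1 ≤ 64 by norm_num)]
  change PowerSeries.coeff 63 (TS (-(a : ℚ)) G * VV (({a, b} : Finset ℕ).erase a) mM (-(a : ℚ))) = _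
  have e1 : ({a, b} : Finset ℕ).erase a = {b} := by
    ext x; simp only [Finset.mem_erase, Finset.mem_insert, Finset.mem_singleton]; omega
  rw [e1]
  unfold VV
  rw [Finset.prod_singleton]

omit hp in
lemma pa_two_b {a b : ℕ} (hab : a < b) (G : ℚ[X]) : pa {a, b} mM G b 1 =
    PowerSeries.coeff 63 (TS (-(b : ℚ)) G * iv (-(b : ℚ) + a) ^ 64) := by
  unfold pa
  rw [if_pos (show 1 ≤ 64 by norm_num)]
  change PowerSeries.coeff 63 (TS (-(b : ℚ)) G * VV (({a, b} : Finset ℕ).erase b) mM (-(b : ℚ))) = _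
  have e1 : ({a, b} : Finset ℕ).erase b = {a} := by
    ext x; simp only [Finset.mem_erase, Finset.mem_insert, Finset.mem_singleton]; omega
  rw [e1]
  unfold VV
  rw [Finset.prod_singleton]

omit hp in
lemma Sp_127 {a b : ℕ} (hab : a < b) : Sp a b (bl a b 127) = 1 := by
  have hne : -(a : ℚ) + b ≠ 0 := by
    intro h
    have h2 : (b : ℚ) = a := by linarith
    have h3 : b = a := by exact_mod_cast h2
    omega
  show pa {a, b} mM _ a 1 + pa {a, b} mM _ b 1 = 1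
  rw [pa_two_a hab, pa_two_b hab]
  have e1 : bl a b 127 = sit b ^ 64 * sit a ^ 63 := by
    unfold bl; norm_num; ring
  have e2 : TS (-(a : ℚ)) (bl a b 127) * iv (-(a : ℚ) + b) ^ 64 = PowerSeries.X ^ 63 * 1 := by
    rw [e1, (TS (-(a : ℚ))).map_mul, (TS (-(a : ℚ))).map_pow, (TS (-(a : ℚ))).map_pow, TS_sit]
    have e3 : TS (-(a : ℚ)) (sit b) * iv (-(a : ℚ) + b) = 1 := by
      unfold sit
      rw [TS_lin]
      exact lin_mul_iv hne
    have e4 : TS (-(a : ℚ)) (sit b) ^ 64 * iv (-(a : ℚ) + b) ^ 64 = 1 := by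
      rw [← mul_pow, e3, one_pow]
    linear_combination PowerSeries.X ^ 63 * e4
  have e5 : TS (-(b : ℚ)) (bl a b 127) * iv (-(b : ℚ) + a) ^ 64 =
      PowerSeries.X ^ 64 * (TS (-(b : ℚ)) (sit a) ^ 63 * iv (-(b : ℚ) + a) ^ 64) := by
    rw [e1, (TS (-(b : ℚ))).map_mul, (TS (-(b : ℚ))).map_pow, (TS (-(b : ℚ))).map_pow, TS_sit]
    ring
  rw [e2, e5, PowerSeries.coeff_X_pow_mul', if_pos (by norm_num), PowerSeries.coeff_X_pow_mul', if_neg (by norm_num)]
  simp

omit hp in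
lemma Sp_128 {a b : ℕ} (hab : a < b) (H : ℚ[X]) : Sp a b (bl a b 128 * H) = 0 := by
  show pa {a, b} mM _ a 1 + pa {a, b} mM _ b 1 = 0
  rw [pa_two_a hab, pa_two_b hab]
  have e1 : bl a b 128 = sit b ^ 64 * sit a ^ 64 := by
    unfold bl; norm_num; ring
  have e2 : TS (-(a : ℚ)) (bl a b 128 * H) * iv (-(a : ℚ) + b) ^ 64 =
      PowerSeries.X ^ 64 * (TS (-(a : ℚ)) (sit b) ^ 64 * TS (-(a : ℚ)) H * iv (-(a : ℚ) + b) ^ 64) := by
    rw [e1, (TS (-(a : ℚ))).map_mul, (TS (-(a : ℚ))).map_mul, (TS (-(a : ℚ))).map_pow, (TS (-(a : ℚ))).map_pow,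
      TS_sit]
    ring
  have e5 : TS (-(b : ℚ)) (bl a b 128 * H) * iv (-(b : ℚ) + a) ^ 64 =
      PowerSeries.X ^ 64 * (TS (-(b : ℚ)) (sit a) ^ 64 * TS (-(b : ℚ)) H * iv (-(b : ℚ) + a) ^ 64) := by
    rw [e1, (TS (-(b : ℚ))).map_mul, (TS (-(b : ℚ))).map_mul, (TS (-(b : ℚ))).map_pow, (TS (-(b : ℚ))).map_pow,
      TS_sit]
    ring
  rw [e2, e5, PowerSeries.coeff_X_pow_mul', if_neg (by norm_num), PowerSeries.coeff_X_pow_mul',
    if_neg (by norm_num), add_zero]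

theorem flat {n a b : ℕ} (ha3 : a < p) (hb3 : 4 * n < a + 2 * p) (hab : b = a + p) (ha : a ∈ sM n) (hb : b ∈ sM n) {g : ℚ[X]}
    (hg : g ∈ IP p) : padicNorm p (Ph n b g + Ph n a g) ≤ padicNorm p (cM n) := by
  have hlt : a < b := by have := hp.out.pos; omega
  have e1 : Ph n b g + Ph n a g = Sp a b (PM n * g * Jp n a b) := by
    rw [Ph_pair n a b hlt ha hb g (Or.inl rfl), Ph_pair n a b hlt ha hb g (Or.inr rfl), add_comm]
    rfl
  obtain ⟨u, hu, H, hH, e⟩ := rep (p := p) a b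
    (mul_mem (mul_mem (Rn_mem (p := p) n) hg) (Jp_mem ha3 hb3 hab ha hb)) 128
  have e2 : PM n * g * Jp n a b = cM n • ((2 * X + C ((4 * n : ℕ) : ℚ)) * g * Jp n a b) := by
    rw [smul_eq_C_mul]; unfold PM; ring
  rw [e1, e2, map_smul, e, map_add, map_sum, Sp_128 hlt, add_zero, smul_eq_mul, padicNorm.mul]
  have e3 : ∑ l ∈ Finset.range 128, Sp a b (C (u l) * bl a b l) = u 127 := by
    rw [Finset.sum_eq_single 127]
    · rw [← smul_eq_C_mul, map_smul, Sp_127 hlt, smul_eq_mul, mul_one]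
    · intro l hl hl2
      rw [Finset.mem_range] at hl
      rw [← smul_eq_C_mul, map_smul, Sp_low hlt (by omega), smul_zero]
    · intro h; exact absurd (Finset.mem_range.2 (by norm_num)) h
  rw [e3]
  exact mul_le_of_le_one_right (padicNorm.nonneg _) (hu 127)

end flat

end

end Pool.Agent.Run7.h24.T.Two
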