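import Pool.Agent.Run7.h24.T.TwoD

/-!
# Two-site classes, part E (helper299, ported by helper429): the kernel, its levels, integrality of the multipliers, single sites
-/

open Polynomial Pool.Agent.H337R2 Pool.Agent.Run7.h851.T

namespace Pool.Agent.Run7.h24.T.Two

noncomputable section

/-- the kernel functional of the pair `a < b = a + p` -/
def Nf (n p a b : ℕ) : ℚ[X] →ₗ[ℚ] ℚ where
  toFun g := Ph n b (g * Es b p) + Ph n a (g * (-Es a (-p)))
  map_add' f g := by rw [add_mul, add_mul, map_add, map_add]; ring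
  map_smul' c f := by
    rw [smul_mul_assoc, smul_mul_assoc, map_smul, map_smul, RingHom.id_apply, smul_eq_mul, smul_eq_mul, smul_eq_mul]
    ring

lemma Nf_apply (n p a b : ℕ) (g : ℚ[X]) : Nf n p a b g = Ph n b (g * Es b p) + Ph n a (g * (-Es a (-p))) := rfl

/-- the local form -/
lemma local_form {n p a b : ℕ} (hp : 0 < p) (hab : b = a + p) (ha : a ∈ sM n) (hb : b ∈ sM n) (u : ℚ)
    (v : ℕ → ℚ) (E : ℚ[X]) : Ph n b (E * Om n u v b) + Ph n a (E * Om n u v a) =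
      Nf n p a b (E * WW p u v a b) + (Ph n b (E * YY p n u v a b) + Ph n a (E * YY p n u v a b)) := by
  rw [Ph_congr n b E (cong_b hp hab ha hb u v), Ph_congr n a E (cong_a hp hab ha hb u v), Nf_apply,
    mul_add, mul_add, map_add, map_add, ← mul_assoc, ← mul_assoc]
  ring

lemma bl128 (a b : ℕ) : bl a b 128 = sit b ^ 64 * sit a ^ 64 := by
  unfold bl; norm_num; ring

lemma Nf_kill (n p a b : ℕ) (H : ℚ[X]) : Nf n p a b (bl a b 128 * H) = 0 := by
  rw [Nf_apply, bl128]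
  have e1 : sit b ^ 64 * sit a ^ 64 * H * Es b p = sit b ^ 64 * (sit a ^ 64 * H * Es b p) := by ring
  have e2 : sit b ^ 64 * sit a ^ 64 * H * (-Es a (-p)) = sit a ^ 64 * (sit b ^ 64 * H * (-Es a (-p))) := by ring
  rw [e1, e2, Ph_kill, Ph_kill, add_zero]

lemma Nf_prod (n p a b : ℕ) (u v : ℕ → ℚ) (H H' : ℚ[X]) {f g : ℚ[X]}
    (hf : f = ∑ l ∈ Finset.range 128, C (u l) * bl a b l + bl a b 128 * H)
    (hg : g = ∑ l ∈ Finset.range 128, C (v l) * bl a b l + bl a b 128 * H') :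
    Nf n p a b (f * g) = ∑ l ∈ Finset.range 128, ∑ l' ∈ Finset.range 128,
      u l * Nf n p a b (bl a b l * bl a b l') * v l' := by
  have e1 : f * g = ∑ l ∈ Finset.range 128, ∑ l' ∈ Finset.range 128, (u l * v l') • (bl a b l * bl a b l') +
      bl a b 128 * (H * g + (∑ l ∈ Finset.range 128, C (u l) * bl a b l) * H') := by
    have e2 : ∑ l ∈ Finset.range 128, ∑ l' ∈ Finset.range 128, (u l * v l') • (bl a b l * bl a b l') =
        (∑ l ∈ Finset.range 128, C (u l) * bl a b l) * (∑ l ∈ Finset.range 128, C (v l) * bl a b l) := by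
      rw [Finset.sum_mul_sum]
      refine Finset.sum_congr rfl fun l _ => Finset.sum_congr rfl fun l' _ => ?_
      rw [smul_eq_C_mul, C_mul]
      ring
    rw [e2]
    conv_lhs => rw [hf, add_mul]
    conv_lhs => enter [1, 2]; rw [hg]
    ring
  rw [e1, map_add, Nf_kill, add_zero, map_sum]
  refine Finset.sum_congr rfl fun l _ => ?_
  rw [map_sum]
  refine Finset.sum_congr rfl fun l' _ => ?_
  rw [map_smul, smul_eq_mul]
  ring

section padic

variable {p : ℕ} [hp : Fact p.Prime]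

lemma PB_sum {ι : Type*} {ρ A : ℚ} (s : Finset ι) (f : ι → PowerSeries ℚ) (hρ : 0 ≤ ρ) (hA : 0 ≤ A)
    (h : ∀ i ∈ s, PB p ρ A (f i)) : PB p ρ A (∑ i ∈ s, f i) := by
  intro j
  rw [map_sum]
  apply padicNorm.sum_le' _ (by positivity)
  intro i hi
  exact h i hi j

lemma PB_neg {ρ A : ℚ} {f : PowerSeries ℚ} (h : PB p ρ A f) : PB p ρ A (-f) := by
  intro j
  rw [map_neg, padicNorm.neg]
  exact h j

lemma inv0 : (0 : ℚ) ≤ (p : ℚ)⁻¹ := inv_nonneg.2 p_pos'.le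

lemma PB_X : PB p (p : ℚ) (p : ℚ)⁻¹ PowerSeries.X := by
  have h := PB.linX (p := p) (ρ := p) (A := (p : ℚ)⁻¹) (a := 0) p_pos'.le inv0 (by
    rw [padicNorm.zero]; exact inv0) (by rw [inv_mul_cancel₀ p_pos'.ne'])
  simpa using h

lemma PB_sit {k s : ℕ} (h : (p : ℤ) ∣ (s : ℤ) - k) : PB p (p : ℚ) (p : ℚ)⁻¹ (TS (-(k : ℚ)) (sit s)) := by
  unfold sit
  rw [TS_lin]
  apply PB.linX p_pos'.le inv0
  · have := norm_le_ite (p := p) (s - k)
    rw [if_pos h] at this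
    rw [show -(k : ℚ) + s = ((s - k : ℤ) : ℚ) by push_cast; ring]
    exact this
  · rw [inv_mul_cancel₀ p_pos'.ne']

lemma PB_bl {a b k : ℕ} (ha : (p : ℤ) ∣ (a : ℤ) - k) (hb : (p : ℤ) ∣ (b : ℤ) - k) (l : ℕ) :
    PB p (p : ℚ) ((p : ℚ)⁻¹ ^ l) (TS (-(k : ℚ)) (bl a b l)) := by
  induction l with
  | zero =>
    have : bl a b 0 = 1 := by simp [bl]
    rw [this, map_one, pow_zero]
    exact PB.one p_pos'.le
  | succ l ih =>
    rw [bl_succ, (TS (-(k : ℚ))).map_mul, pow_succ]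
    apply PB.mul p_pos'.le (pow_nonneg inv0 _) inv0 ih
    split_ifs
    · exact PB_sit hb
    · exact PB_sit ha

lemma PB_Es {k : ℕ} {c : ℚ} (hc : padicNorm p c⁻¹ ≤ p) : PB p (p : ℚ) p (TS (-(k : ℚ)) (Es k c)) := by
  have hpp := p_pos' (p := p)
  have h1 : PB p (p : ℚ) 1 (PowerSeries.C c⁻¹ * PowerSeries.X) := by
    have := PB.mul hpp.le hpp.le inv0 (PB.C (p := p) hpp.le hpp.le hc) PB_X
    rwa [mul_inv_cancel₀ hpp.ne'] at this
  have h2 : PB p (p : ℚ) 1 (∑ i ∈ Finset.range 64, (PowerSeries.C c⁻¹ * PowerSeries.X : PowerSeries ℚ) ^ i) := by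
    apply PB_sum _ _ hpp.le zero_le_one
    intro i _
    have := PB.pow hpp.le zero_le_one h1 i
    rwa [one_pow] at this
  have h3 := PB_neg (PB.mul hpp.le hpp.le zero_le_one (PB.C (p := p) hpp.le hpp.le hc) h2)
  rw [mul_one] at h3
  unfold Es
  rw [map_neg, (TS (-(k : ℚ))).map_mul, map_sum, TS_C]
  simp only [map_pow, map_mul, TS_C, TS_sit]
  exact h3

lemma norm_pinv : padicNorm p ((p : ℚ)⁻¹) = p := by
  rw [← one_div, padicNorm.div, padicNorm.one, padicNorm.padicNorm_p_of_prime, one_div, inv_inv]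

lemma Ph_level (hC : St_C1_pa) {n a b k : ℕ} (hn : 1 ≤ n) (hp2 : 4 * n < p ^ 2) (hk : k ∈ sM n) (ha : (p : ℤ) ∣ (a : ℤ) - k)
    (hb : (p : ℤ) ∣ (b : ℤ) - k) {N : ℚ[X]} (hN : PB p (p : ℚ) p (TS (-(k : ℚ)) N)) (l l' : ℕ) :
    padicNorm p (Ph n k (bl a b l * bl a b l' * N)) ≤ (p : ℚ) ^ (eM n p k - l - l' : ℤ) := by
  have hpp := p_pos' (p := p)
  have h1 := PB.mul hpp.le (by have := inv0 (p := p); positivity) hpp.le
    (PB.mul hpp.le (pow_nonneg inv0 _) (pow_nonneg inv0 _) (PB_bl ha hb l) (PB_bl ha hb l')) hN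
  rw [← (TS (-(k : ℚ))).map_mul, ← (TS (-(k : ℚ))).map_mul] at h1
  have h2 := hC hn hp2 (bl a b l * bl a b l' * N) hk _ (by have := inv0 (p := p); positivity) h1 1
  rw [Ph_apply]
  refine h2.trans (le_of_eq ?_)
  rw [inv_pow, inv_pow, ← zpow_natCast, ← zpow_natCast, ← zpow_neg, ← zpow_neg, ← zpow_add₀ hpp.ne',
    ← zpow_add_one₀ hpp.ne', ← zpow_add₀ hpp.ne']
  congr 1
  push_cast
  ring

lemma Nf_level (hC : St_C1_pa) {n a b : ℕ} (hn : 1 ≤ n) (hp2 : 4 * n < p ^ 2) (hab : b = a + p) (ha : a ∈ sM n) (hb : b ∈ sM n)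
    (he : eM n p b = eM n p a) (l l' : ℕ) :
    padicNorm p (Nf n p a b (bl a b l * bl a b l')) ≤ (p : ℚ) ^ (eM n p a - l - l' : ℤ) := by
  rw [Nf_apply]
  have hab' : (b : ℤ) = a + p := by exact_mod_cast hab
  refine (padicNorm.nonarchimedean).trans (max_le ?_ ?_)
  · have := Ph_level hC hn hp2 hb (a := a) (b := b) (by rw [hab']; exact ⟨-1, by ring⟩) (by rw [sub_self]; exact dvd_zero _)
      (PB_Es (p := p) (k := b) (c := (p : ℚ)) norm_pinv.le) l l'
    rwa [he] at this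
  · have := Ph_level hC hn hp2 ha (a := a) (b := b) (by rw [sub_self]; exact dvd_zero _) (by rw [hab']; exact ⟨1, by ring⟩)
      (N := -Es a (-(p : ℚ)))
      (by
        rw [map_neg]
        apply PB_neg
        apply PB_Es
        rw [inv_neg, padicNorm.neg]
        exact norm_pinv.le) l l'
    exact this

/-! ### integrality of the multipliers -/

lemma vh_mem {v : ℕ → ℚ} (hv : ∀ i, padicNorm p (v i) ≤ 1) {z : ℚ[X]} (hz : z ∈ IP p) : vh v z ∈ IP p := by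
  unfold vh
  refine sum_mem fun j _ => mul_mem (C_mem ?_) (pow_mem (pow_mem hz _) _)
  rw [padicNorm.mul]
  have := padicNorm.of_int (p := p) 2
  push_cast at this
  exact mul_le_one₀ this (padicNorm.nonneg _) (hv _)

lemma vc_mem {v : ℕ → ℚ} (hv : ∀ i, padicNorm p (v i) ≤ 1) {z y : ℚ[X]} (hz : z ∈ IP p) (hy : y ∈ IP p) :
    vc v z y ∈ IP p := by
  unfold vc
  refine sum_mem fun j _ => mul_mem (C_mem ?_) (sum_mem fun i _ => mul_mem (pow_mem (pow_mem hz _) _) (pow_mem (pow_mem hy _) _))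
  rw [padicNorm.mul]
  have := padicNorm.of_int (p := p) 2
  push_cast at this
  exact mul_le_one₀ this (padicNorm.nonneg _) (hv _)

lemma Ioo_rst {n a b s : ℕ} (ha : a ∈ sM n) (hb : b ∈ sM n) (hs : s ∈ Finset.Ioo a b) : s ∈ rst n a b := by
  unfold rst
  rw [Finset.mem_erase, Finset.mem_erase, Finset.mem_Icc]
  rw [Finset.mem_Icc] at ha hb
  rw [Finset.mem_Ioo] at hs
  omega

lemma Hp_mem {n a b : ℕ} (ha3 : a < p) (hb3 : 4 * n < a + 2 * p) (hab : b = a + p) (ha : a ∈ sM n) (hb : b ∈ sM n) : Hp a b ∈ IP p := by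
  unfold Hp
  refine sum_mem fun s hs => mul_mem (io_mem (ww_norm ha3 hb3 hab ha hb (Ioo_rst ha hb hs)))
    (io_mem (ww_norm ha3 hb3 hab ha hb (Ioo_rst ha hb ?_)))
  rw [Finset.mem_Ioo] at hs ⊢
  omega

lemma Mp_mem {n a b : ℕ} (ha3 : a < p) (hb3 : 4 * n < a + 2 * p) (hab : b = a + p) (ha : a ∈ sM n) (hb : b ∈ sM n) : Mp a b ∈ IP p := by
  unfold Mp
  exact sum_mem fun s hs => io_mem (ww_norm ha3 hb3 hab ha hb (Ioo_rst ha hb hs))

lemma Gp_mem {n a b : ℕ} (ha3 : a < p) (hb3 : 4 * n < a + 2 * p) (hab : b = a + p) (ha : a ∈ sM n) (hb : b ∈ sM n) : Gp n a b ∈ IP p := by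
  unfold Gp
  refine sum_mem fun s hs => ?_
  have := io_mem (ww_norm ha3 hb3 hab ha hb hs)
  split_ifs
  · exact this
  · exact neg_mem this
  · exact zero_mem _

lemma WW_mem {n a b : ℕ} (ha3 : a < p) (hb3 : 4 * n < a + 2 * p) (hab : b = a + p) (ha : a ∈ sM n) (hb : b ∈ sM n) {u : ℚ}
    {v : ℕ → ℚ} (hu : padicNorm p u ≤ 1) (hv : ∀ i, padicNorm p (v i) ≤ 1) : WW p u v a b ∈ IP p := by
  unfold WW
  have hT : sit b * sit a ∈ IP p := mul_mem (sit_mem b) (sit_mem a)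
  have hP : (C (p : ℚ) : ℚ[X]) ∈ IP p := C_mem (by
    have := padicNorm.of_int (p := p) (p : ℤ)
    exact_mod_cast this)
  exact add_mem (mul_mem (C_mem hu) (add_mem (one_mem _) (mul_mem hT (Hp_mem ha3 hb3 hab ha hb))))
    (mul_mem (mul_mem hP (vc_mem hv (sit_mem _) (sit_mem _))) hT)

lemma YY_mem {n a b : ℕ} (ha3 : a < p) (hb3 : 4 * n < a + 2 * p) (hab : b = a + p) (ha : a ∈ sM n) (hb : b ∈ sM n) {u : ℚ}
    {v : ℕ → ℚ} (hu : padicNorm p u ≤ 1) (hv : ∀ i, padicNorm p (v i) ≤ 1) : YY p n u v a b ∈ IP p := by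
  unfold YY
  have hP : (C (p : ℚ) : ℚ[X]) ∈ IP p := C_mem (by
    have := padicNorm.of_int (p := p) (p : ℤ)
    exact_mod_cast this)
  exact sub_mem (add_mem (mul_mem (C_mem hu) (sub_mem (add_mem (Gp_mem ha3 hb3 hab ha hb) (Mp_mem ha3 hb3 hab ha hb))
    (mul_mem (sit_mem b) (Hp_mem ha3 hb3 hab ha hb)))) (vh_mem hv (sit_mem b)))
    (mul_mem (mul_mem hP (vc_mem hv (sit_mem _) (sit_mem _))) (sit_mem b))

/-! ### single sites -/

lemma TS_int {E : ℚ[X]} (hE : E ∈ IP p) (k : ℕ) : PB p 1 1 (TS (-(k : ℚ)) E) := by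
  rw [E.as_sum_range_C_mul_X_pow, map_sum]
  apply PB_sum _ _ zero_le_one zero_le_one
  intro j _
  rw [(TS (-(k : ℚ))).map_mul, (TS (-(k : ℚ))).map_pow, TS_C, TS_X]
  have h1 : PB p 1 1 (PowerSeries.X + PowerSeries.C (-(k : ℚ))) := by
    apply PB.linX zero_le_one zero_le_one
    · have := padicNorm.of_int (p := p) (-(k : ℤ))
      push_cast at this
      exact this
    · rw [one_mul]
  have h2 := PB.pow zero_le_one zero_le_one h1 j
  rw [one_pow] at h2
  have h3 := PB.mul zero_le_one zero_le_one zero_le_one (PB.C (p := p) zero_le_one zero_le_one (hE j)) h2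
  rwa [one_mul] at h3

lemma hs_int {i m : ℕ} (hm : m < p) : padicNorm p (hs i m) ≤ 1 := by
  unfold hs
  apply padicNorm.sum_le' _ zero_le_one
  intro l hl
  rw [Finset.mem_range] at hl
  have h1 : padicNorm p ((l : ℚ) + 1) = 1 := by
    have h2 : ¬ (p : ℤ) ∣ ((l + 1 : ℕ) : ℤ) := by
      rw [Int.natCast_dvd_natCast]
      intro h
      have := Nat.le_of_dvd (by omega) h
      omega
    have := (padicNorm.int_eq_one_iff (p := p) _).2 h2
    push_cast at this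
    exact this
  rw [padicNorm.div, padicNorm.one, padicNorm_pow', h1, one_pow, div_one]

lemma fk_single (hC : St_C1_pa_int) {n : ℕ} (hn : 1 ≤ n) {u : ℚ} {v : ℕ → ℚ} (hu : padicNorm p u ≤ 1)
    (hv : ∀ i, padicNorm p (v i) ≤ 1) {E : ℚ[X]} (hE : E ∈ IP p) {k : ℕ} (hk2 : k ∈ sM n) (hk : k < p)
    (hk4 : ∀ k' ∈ sM n, k' ≠ k → ¬ (p : ℤ) ∣ (k' : ℤ) - k) :
    padicNorm p (fk n u v E k) ≤ padicNorm p (cM n) := by
  have hk3 := Finset.mem_Icc.1 hk2
  unfold fk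
  apply padicNorm.sum_le' _ (padicNorm.nonneg _)
  intro i _
  rw [padicNorm.mul]
  have h2 := hC hn E hk2 1 zero_le_one (TS_int hE k) i hk4
  rw [mul_one] at h2
  have h3 : padicNorm p (v i - u * hs i k) ≤ 1 := by
    refine (padicNorm.sub).trans (max_le (hv i) ?_)
    rw [padicNorm.mul]
    exact mul_le_one₀ hu (padicNorm.nonneg _) (hs_int (by omega))
  calc _ ≤ padicNorm p (cM n) * 1 := mul_le_mul h2 h3 (padicNorm.nonneg _) (padicNorm.nonneg _)
    _ = _ := mul_one _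

end padic

end

end Pool.Agent.Run7.h24.T.Two
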