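import Pool.Agent.Run7.h24.T.TwoC

/-!
# D7, Two, part P (helper511, after helper324): symmetrisation, splitting of the sum over the poles
-/

open Polynomial Pool.Agent.H337R2 Pool.Agent.Run7.h851.T

namespace Pool.Agent.Run7.h24.T.Two

noncomputable section

lemma TwoP_Es (k : ℕ) (c : ℚ) : Es k c = -∑ i ∈ Finset.Icc 1 64, C ((c⁻¹) ^ i) * sit k ^ (i - 1) := by
  have e : ∑ i ∈ Finset.Icc 1 64, C ((c⁻¹) ^ i) * sit k ^ (i - 1) =
      ∑ i ∈ Finset.range 64, C ((c⁻¹) ^ (i + 1)) * sit k ^ i := by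
    rw [show (Finset.Icc 1 64 : Finset ℕ) = Finset.Ico (0 + 1) (64 + 1) from rfl,
      ← Finset.sum_Ico_add' (fun i => C ((c⁻¹) ^ i) * sit k ^ (i - 1)) 0 64 1, Finset.range_eq_Ico]
    refine Finset.sum_congr rfl fun i _ => ?_
    rw [Nat.add_sub_cancel]
  rw [e]
  have e2 : C c⁻¹ * ∑ i ∈ Finset.range 64, (C c⁻¹ * sit k) ^ i = ∑ i ∈ Finset.range 64, C ((c⁻¹) ^ (i + 1)) * sit k ^ i := by
    rw [Finset.mul_sum]
    refine Finset.sum_congr rfl fun i _ => ?_
    rw [mul_pow, ← C_pow, pow_succ, C_mul]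
    ring
  rw [← e2]
  unfold Es
  exact rfl

lemma TwoP_low (k : ℕ) : ∑ s ∈ Finset.range k, Es k ((k : ℚ) - s) =
    -∑ i ∈ Finset.Icc 1 64, C (hs i k) * sit k ^ (i - 1) := by
  have h1 : ∑ s ∈ Finset.range k, Es k ((k : ℚ) - s) =
      ∑ l ∈ Finset.range k, Es k ((l : ℚ) + 1) := by
    refine Finset.sum_nbij' (fun s => k - s - 1) (fun l => k - (l + 1)) ?_ ?_ ?_ ?_ ?_
    · intro s hs; rw [Finset.mem_range] at hs ⊢; omega
    · intro l hl; rw [Finset.mem_range] at hl ⊢; omega
    · intro s hs; rw [Finset.mem_range] at hs; omega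
    · intro l hl; rw [Finset.mem_range] at hl; omega
    · intro s hs
      rw [Finset.mem_range] at hs
      congr 1
      rw [Nat.cast_sub (by omega), Nat.cast_sub (by omega)]
      push_cast; ring
  rw [h1]
  unfold hs
  simp only [TwoP_Es]
  rw [Finset.sum_neg_distrib, Finset.sum_comm]
  refine congrArg Neg.neg ?_
  refine Finset.sum_congr rfl fun i _ => ?_
  rw [map_sum, Finset.sum_mul]
  refine Finset.sum_congr rfl fun l _ => ?_
  rw [inv_pow, one_div]

lemma TwoP_high (n k : ℕ) : ∑ s ∈ Finset.Ioc k (4 * n), -Es k ((k : ℚ) - s) =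
    -∑ i ∈ Finset.Icc 1 64, C ((-1) ^ (i + 1) * hs i (4 * n - k)) * sit k ^ (i - 1) := by
  have h1 : ∑ s ∈ Finset.Ioc k (4 * n), -Es k ((k : ℚ) - s) =
      ∑ l ∈ Finset.range (4 * n - k), -Es k (-((l : ℚ) + 1)) := by
    refine Finset.sum_nbij' (fun s => s - k - 1) (fun l => k + (l + 1)) ?_ ?_ ?_ ?_ ?_
    · intro s hs; rw [Finset.mem_Ioc] at hs; rw [Finset.mem_range]; omega
    · intro l hl; rw [Finset.mem_range] at hl; rw [Finset.mem_Ioc]; omega
    · intro s hs; rw [Finset.mem_Ioc] at hs; omega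
    · intro l hl; rw [Finset.mem_range] at hl; omega
    · intro s hs
      rw [Finset.mem_Ioc] at hs
      congr 2
      rw [Nat.cast_sub (by omega), Nat.cast_sub (by omega)]
      push_cast; ring
  rw [h1]
  unfold hs
  simp only [TwoP_Es, neg_neg]
  rw [Finset.sum_comm, ← Finset.sum_neg_distrib]
  refine Finset.sum_congr rfl fun i _ => ?_
  rw [Finset.mul_sum, map_sum, Finset.sum_mul, ← Finset.sum_neg_distrib]
  refine Finset.sum_congr rfl fun l _ => ?_
  rw [← neg_mul, ← C_neg]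
  congr 2
  rw [inv_neg, neg_pow, inv_pow, pow_succ]
  ring

lemma TwoP_sum_even (m : ℕ) (f : ℕ → ℚ[X]) :
    ∑ i ∈ Finset.range (2 * m), f i = ∑ j ∈ Finset.range m, (f (2 * j) + f (2 * j + 1)) := by
  induction m with
  | zero => simp
  | succ m ih =>
    rw [show 2 * (m + 1) = 2 * m + 1 + 1 by ring, Finset.sum_range_succ, Finset.sum_range_succ,
      Finset.sum_range_succ, ih]
    ring

lemma TwoP_vh (v : ℕ → ℚ) (z : ℚ[X]) :
    vh v z = ∑ i ∈ Finset.Icc 1 64, C ((1 + (-1) ^ (i + 1)) * v i) * z ^ (i - 1) := by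
  have e : ∑ i ∈ Finset.Icc 1 64, C ((1 + (-1) ^ (i + 1)) * v i) * z ^ (i - 1) =
      ∑ i ∈ Finset.range (2 * 32), C ((1 + (-1) ^ (i + 1 + 1)) * v (i + 1)) * z ^ i := by
    rw [show (Finset.Icc 1 64 : Finset ℕ) = Finset.Ico (0 + 1) (64 + 1) from rfl,
      ← Finset.sum_Ico_add' (fun i => C ((1 + (-1) ^ (i + 1)) * v i) * z ^ (i - 1)) 0 64 1,
      show (2 * 32 : ℕ) = 64 from rfl, Finset.range_eq_Ico]
    refine Finset.sum_congr rfl fun i _ => ?_
    rw [Nat.add_sub_cancel]
  rw [e, TwoP_sum_even]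
  unfold vh
  refine Finset.sum_congr rfl fun j _ => ?_
  have h1 : ((-1 : ℚ)) ^ (2 * j + 1 + 1) = 1 := by
    rw [show 2 * j + 1 + 1 = 2 * (j + 1) by ring, pow_mul]; norm_num
  have h2 : ((-1 : ℚ)) ^ (2 * j + 1 + 1 + 1) = -1 := by
    rw [pow_succ, h1]; norm_num
  rw [h1, h2, ← pow_mul, show (1 + 1 : ℚ) = 2 by norm_num, show (1 + -1 : ℚ) = 0 by norm_num, zero_mul, C_0,
    zero_mul, add_zero]

lemma TwoP_Om (n : ℕ) (u : ℚ) (v : ℕ → ℚ) {k : ℕ} (hk : k ∈ sM n) : Om n u v k =
    ∑ i ∈ Finset.Icc 1 64, C ((1 + (-1) ^ (i + 1)) * v i -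
      u * (hs i k + (-1) ^ (i + 1) * hs i (4 * n - k))) * sit k ^ (i - 1) := by
  rw [Finset.mem_Icc] at hk
  have h1 : ∑ s ∈ (sM n).erase k, (if s < k then Es k ((k : ℚ) - s) else -Es k ((k : ℚ) - s)) =
      ∑ s ∈ Finset.range k, Es k ((k : ℚ) - s) + ∑ s ∈ Finset.Ioc k (4 * n), -Es k ((k : ℚ) - s) := by
    have h2 : (sM n).erase k = Finset.range k ∪ Finset.Ioc k (4 * n) := by
      ext x
      simp only [sM, Finset.mem_erase, Finset.mem_Icc, Finset.mem_union, Finset.mem_range, Finset.mem_Ioc]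
      omega
    rw [h2, Finset.sum_union]
    · refine congrArg₂ (· + ·) ?_ ?_
      · refine Finset.sum_congr rfl fun s hs => ?_
        rw [Finset.mem_range] at hs
        rw [if_pos hs]
      · refine Finset.sum_congr rfl fun s hs => ?_
        rw [Finset.mem_Ioc] at hs
        rw [if_neg (by omega)]
    · rw [Finset.disjoint_left]
      intro x hx hx2
      rw [Finset.mem_range] at hx
      rw [Finset.mem_Ioc] at hx2
      omega
  unfold Om
  rw [h1, TwoP_low, TwoP_high, TwoP_vh, ← Finset.sum_neg_distrib, ← Finset.sum_neg_distrib,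
    ← Finset.sum_add_distrib, Finset.mul_sum, ← Finset.sum_add_distrib]
  refine Finset.sum_congr rfl fun i _ => ?_
  simp only [C_sub, C_add, C_mul]
  ring

/-- reflection of a product of linear factors -/
lemma TwoP_prod_comp (N : ℕ) (s s' : Finset ℕ) (h : ∀ m ∈ s, m ≤ N ∧ N - m ∈ s')
    (h' : ∀ m ∈ s', m ≤ N ∧ N - m ∈ s) :
    (∏ m ∈ s, (X + C (m : ℚ) : ℚ[X])).comp (-X - C (N : ℚ)) =
      (-1) ^ s.card * ∏ m ∈ s', (X + C (m : ℚ)) := by
  rw [Polynomial.prod_comp]
  have h2 : ∏ m ∈ s, (X + C (m : ℚ) : ℚ[X]).comp (-X - C (N : ℚ)) =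
      ∏ m ∈ s, (-1) * (X + C ((N - m : ℕ) : ℚ)) := by
    apply Finset.prod_congr rfl
    intro m hm
    simp only [Polynomial.add_comp, Polynomial.X_comp, Polynomial.C_comp]
    rw [Nat.cast_sub (h m hm).1, map_sub]
    ring
  rw [h2, Finset.prod_mul_distrib, Finset.prod_const]
  congr 1
  refine Finset.prod_nbij' (fun m => N - m) (fun m => N - m) (fun m hm => (h m hm).2)
    (fun m hm => (h' m hm).2) (fun m hm => ?_) (fun m hm => ?_) (fun m _ => rfl)
  · have := (h m hm).1
    omega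
  · have := (h' m hm).1
    omega

lemma TwoP_PM_comp (n : ℕ) : (PM n).comp (-X - C ((4 * n : ℕ) : ℚ)) = - PM n := by
  unfold PM
  rw [Polynomial.mul_comp, Polynomial.C_comp]
  have h1 : (2 * X + C ((4 * n : ℕ) : ℚ) : ℚ[X]).comp (-X - C ((4 * n : ℕ) : ℚ)) =
      -(2 * X + C ((4 * n : ℕ) : ℚ)) := by
    simp only [Polynomial.add_comp, Polynomial.mul_comp, Polynomial.X_comp, Polynomial.C_comp,
      Polynomial.ofNat_comp]
    ring
  rw [h1]
  ring

lemma TwoP_refl (n : ℕ) (E : ℚ[X]) (hE : E.comp (-X - C ((4 * n : ℕ) : ℚ)) = E) {k : ℕ} (hk : k ∈ sM n) {i : ℕ}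
    (hi1 : 1 ≤ i) (hi2 : i ≤ 64) :
    pa (sM n) mM (PM n * E) (4 * n - k) i = (-1) ^ (i + 1) * pa (sM n) mM (PM n * E) k i := by
  have hP : (PM n * E).comp (-X - C ((4 * n : ℕ) : ℚ)) = -(PM n * E) := by
    rw [Polynomial.mul_comp, TwoP_PM_comp, hE, neg_mul]
  unfold pa
  rw [if_pos (show i ≤ 64 from hi2), if_pos (show i ≤ 64 from hi2)]
  rw [pfc_reflect (sM n) mM (PM n * E) (4 * n) ?_ ?_ hP ?_ hk ?_]
  · rw [show mM k - (mM k - i) = i by show 64 - (64 - i) = i; omega]
    show -(-1) ^ i * pfc (sM n) mM (PM n * E) k (64 - i) = _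
    rw [pow_succ]
    ring
  · intro k hk
    rw [Finset.mem_Icc] at hk ⊢
    omega
  · intro k _; rfl
  · rw [Finset.sum_const, smul_eq_mul, mul_comm]
    exact ⟨32 * (sM n).card, by ring⟩
  · show 64 - i < 64
    omega

/-- P2a -/
theorem fk_pair (n : ℕ) (u : ℚ) (v : ℕ → ℚ) (E : ℚ[X]) (hE : E.comp (-X - C ((4 * n : ℕ) : ℚ)) = E)
    {k : ℕ} (hk : k ∈ sM n) :
    fk n u v E k + fk n u v E (4 * n - k) = Ph n k (E * Om n u v k) := by
  rw [TwoP_Om n u v hk, Finset.mul_sum, map_sum]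
  unfold fk
  rw [← Finset.sum_add_distrib]
  refine Finset.sum_congr rfl fun i hi => ?_
  rw [Finset.mem_Icc] at hi
  rw [TwoP_refl n E hE hk hi.1 hi.2]
  have h1 : E * (C ((1 + (-1) ^ (i + 1)) * v i - u * (hs i k + (-1) ^ (i + 1) * hs i (4 * n - k))) *
      sit k ^ (i - 1)) = ((1 + (-1) ^ (i + 1)) * v i - u * (hs i k + (-1) ^ (i + 1) * hs i (4 * n - k))) •
      (E * sit k ^ (i - 1)) := by
    rw [smul_eq_C_mul]; ring
  rw [h1, map_smul, Ph_pa n k E hi.1 hi.2, smul_eq_mul]
  ring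

/-- the three kinds of classes -/
lemma TwoP_split {n p : ℕ} (h1 : 4 * n < 3 * p) (h2 : p < 4 * n) (F : ℕ → ℚ) :
    ∑ k ∈ sM n, F k =
      ∑ a ∈ (Finset.Icc 0 (4 * n - p)).filter (fun a => a < p ∧ 4 * n < a + 2 * p),
        (F (a + p) + F a) +
      ∑ c ∈ Finset.Icc p (4 * n - p), (F (c - p) + F c + F (c + p)) +
      ∑ k ∈ Finset.Ioo (4 * n - p) p, F k := by
  rw [← Finset.sum_filter_add_sum_filter_not (sM n) (fun k => k < p),
    ← Finset.sum_filter_add_sum_filter_not ((sM n).filter (fun k => k < p)) (fun k => 4 * n < k + p),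
    ← Finset.sum_filter_add_sum_filter_not
      (((sM n).filter (fun k => k < p)).filter (fun k => ¬ 4 * n < k + p)) (fun k => 4 * n < k + 2 * p),
    ← Finset.sum_filter_add_sum_filter_not ((sM n).filter (fun k => ¬ k < p)) (fun k => k + p ≤ 4 * n),
    ← Finset.sum_filter_add_sum_filter_not
      (((sM n).filter (fun k => ¬ k < p)).filter (fun k => ¬ k + p ≤ 4 * n)) (fun k => k < 2 * p)]
  have e1 : ∑ k ∈ ((sM n).filter (fun k => k < p)).filter (fun k => 4 * n < k + p), F k =
      ∑ k ∈ Finset.Ioo (4 * n - p) p, F k := by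
    refine Finset.sum_congr ?_ fun _ _ => rfl
    ext k
    simp only [sM, Finset.mem_filter, Finset.mem_Icc, Finset.mem_Ioo]
    omega
  have e2 : ∑ k ∈ (((sM n).filter (fun k => k < p)).filter (fun k => ¬ 4 * n < k + p)).filter
      (fun k => 4 * n < k + 2 * p), F k =
      ∑ a ∈ (Finset.Icc 0 (4 * n - p)).filter (fun a => a < p ∧ 4 * n < a + 2 * p), F a := by
    refine Finset.sum_congr ?_ fun _ _ => rfl
    ext k
    simp only [sM, Finset.mem_filter, Finset.mem_Icc]
    omega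
  have e3 : ∑ k ∈ (((sM n).filter (fun k => k < p)).filter (fun k => ¬ 4 * n < k + p)).filter
      (fun k => ¬ 4 * n < k + 2 * p), F k =
      ∑ c ∈ Finset.Icc p (4 * n - p), F (c - p) := by
    refine Finset.sum_nbij' (fun a => a + p) (fun a => a - p) ?_ ?_ ?_ ?_ ?_
    · intro a ha
      simp only [sM, Finset.mem_filter, Finset.mem_Icc] at ha ⊢
      omega
    · intro a ha
      simp only [sM, Finset.mem_filter, Finset.mem_Icc] at ha ⊢
      omega
    · intro a _
      simp only [Nat.add_sub_cancel]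
    · intro a ha
      simp only [Finset.mem_Icc] at ha
      omega
    · intro a _
      rw [Nat.add_sub_cancel]
  have e4 : ∑ k ∈ ((sM n).filter (fun k => ¬ k < p)).filter (fun k => k + p ≤ 4 * n), F k =
      ∑ c ∈ Finset.Icc p (4 * n - p), F c := by
    refine Finset.sum_congr ?_ fun _ _ => rfl
    ext k
    simp only [sM, Finset.mem_filter, Finset.mem_Icc]
    omega
  have e5 : ∑ k ∈ (((sM n).filter (fun k => ¬ k < p)).filter (fun k => ¬ k + p ≤ 4 * n)).filter
      (fun k => k < 2 * p), F k =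
      ∑ a ∈ (Finset.Icc 0 (4 * n - p)).filter (fun a => a < p ∧ 4 * n < a + 2 * p),
        F (a + p) := by
    refine Finset.sum_nbij' (fun a => a - p) (fun a => a + p) ?_ ?_ ?_ ?_ ?_
    · intro a ha
      simp only [sM, Finset.mem_filter, Finset.mem_Icc] at ha ⊢
      omega
    · intro a ha
      simp only [sM, Finset.mem_filter, Finset.mem_Icc] at ha ⊢
      omega
    · intro a ha
      simp only [sM, Finset.mem_filter, Finset.mem_Icc] at ha
      omega
    · intro a _
      simp only [Nat.add_sub_cancel]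
    · intro a ha
      simp only [sM, Finset.mem_filter, Finset.mem_Icc] at ha
      congr 1
      omega
  have e6 : ∑ k ∈ (((sM n).filter (fun k => ¬ k < p)).filter (fun k => ¬ k + p ≤ 4 * n)).filter
      (fun k => ¬ k < 2 * p), F k =
      ∑ c ∈ Finset.Icc p (4 * n - p), F (c + p) := by
    refine Finset.sum_nbij' (fun a => a - p) (fun a => a + p) ?_ ?_ ?_ ?_ ?_
    · intro a ha
      simp only [sM, Finset.mem_filter, Finset.mem_Icc] at ha ⊢
      omega
    · intro a ha
      simp only [sM, Finset.mem_filter, Finset.mem_Icc] at ha ⊢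
      omega
    · intro a ha
      simp only [sM, Finset.mem_filter, Finset.mem_Icc] at ha
      omega
    · intro a _
      simp only [Nat.add_sub_cancel]
    · intro a ha
      simp only [sM, Finset.mem_filter, Finset.mem_Icc] at ha
      congr 1
      omega
  rw [e1, e2, e3, e4, e5, e6]
  simp only [Finset.sum_add_distrib]
  ring

/-- the two-site classes in pairs -/
lemma TwoP_low_pair {n p : ℕ} (hodd : Odd p) (h2 : p < 4 * n) (G : ℕ → ℚ) :
    ∑ a ∈ (Finset.Icc 0 (4 * n - p)).filter (fun a => a < p ∧ 4 * n < a + 2 * p), G a =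
      ∑ a ∈ Alow n p, (G a + G (4 * n - p - a)) := by
  obtain ⟨r, hr⟩ := hodd
  rw [← Finset.sum_filter_add_sum_filter_not
    ((Finset.Icc 0 (4 * n - p)).filter (fun a => a < p ∧ 4 * n < a + 2 * p))
    (fun a => 2 * a + p < 4 * n), Finset.sum_add_distrib]
  congr 1
  · refine Finset.sum_congr ?_ fun _ _ => rfl
    ext a
    simp only [Alow, Finset.mem_filter, Finset.mem_Icc]
    omega
  · refine Finset.sum_nbij' (fun a => 4 * n - p - a) (fun a => 4 * n - p - a) ?_ ?_ ?_ ?_ ?_
    · intro a ha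
      simp only [Alow, Finset.mem_filter, Finset.mem_Icc] at ha ⊢
      omega
    · intro a ha
      simp only [Alow, Finset.mem_filter, Finset.mem_Icc] at ha ⊢
      omega
    · intro a ha
      simp only [Finset.mem_filter, Finset.mem_Icc] at ha
      omega
    · intro a ha
      simp only [Alow, Finset.mem_filter, Finset.mem_Icc] at ha
      omega
    · intro a ha
      simp only [Finset.mem_filter, Finset.mem_Icc] at ha
      congr 1
      omega

/-- the three-site classes in pairs -/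
lemma TwoP_mid_pair {n p : ℕ} (G : ℕ → ℚ) :
    ∑ c ∈ Finset.Icc p (4 * n - p), G c =
      ∑ c ∈ (Amid n p).filter (fun c => c < 2 * n), (G c + G (4 * n - c)) +
        (if p ≤ 2 * n then G (2 * n) else 0) := by
  rw [← Finset.sum_filter_add_sum_filter_not (Finset.Icc p (4 * n - p)) (fun c => c < 2 * n),
    ← Finset.sum_filter_add_sum_filter_not
      ((Finset.Icc p (4 * n - p)).filter (fun c => ¬ c < 2 * n)) (fun c => c = 2 * n),
    Finset.sum_add_distrib]
  have e1 : ∑ c ∈ (Finset.Icc p (4 * n - p)).filter (fun c => c < 2 * n), G c =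
      ∑ c ∈ (Amid n p).filter (fun c => c < 2 * n), G c := by
    refine Finset.sum_congr ?_ fun _ _ => rfl
    ext a
    simp only [Amid, Finset.mem_filter, Finset.mem_Icc]
    omega
  have e2 : ∑ c ∈ ((Finset.Icc p (4 * n - p)).filter (fun c => ¬ c < 2 * n)).filter
      (fun c => c = 2 * n), G c = if p ≤ 2 * n then G (2 * n) else 0 := by
    split_ifs with h
    · have : ((Finset.Icc p (4 * n - p)).filter (fun c => ¬ c < 2 * n)).filter
          (fun c => c = 2 * n) = {2 * n} := by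
        ext a
        simp only [Finset.mem_filter, Finset.mem_Icc, Finset.mem_singleton]
        omega
      rw [this, Finset.sum_singleton]
    · have : ((Finset.Icc p (4 * n - p)).filter (fun c => ¬ c < 2 * n)).filter
          (fun c => c = 2 * n) = ∅ := by
        ext a
        simp only [Finset.mem_filter, Finset.mem_Icc, Finset.notMem_empty, iff_false]
        omega
      rw [this, Finset.sum_empty]
  have e3 : ∑ c ∈ ((Finset.Icc p (4 * n - p)).filter (fun c => ¬ c < 2 * n)).filter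
      (fun c => ¬ c = 2 * n), G c = ∑ c ∈ (Amid n p).filter (fun c => c < 2 * n), G (4 * n - c) := by
    refine Finset.sum_nbij' (fun a => 4 * n - a) (fun a => 4 * n - a) ?_ ?_ ?_ ?_ ?_
    · intro a ha
      simp only [Amid, Finset.mem_filter, Finset.mem_Icc] at ha ⊢
      omega
    · intro a ha
      simp only [Amid, Finset.mem_filter, Finset.mem_Icc] at ha ⊢
      omega
    · intro a ha
      simp only [Finset.mem_filter, Finset.mem_Icc] at ha
      omega
    · intro a ha
      simp only [Amid, Finset.mem_filter, Finset.mem_Icc] at ha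
      omega
    · intro a ha
      simp only [Finset.mem_filter, Finset.mem_Icc] at ha
      congr 1
      omega
  rw [e1, e2, e3]
  ring

/-- P2b: the splitting of the sum over the poles -/
theorem split_sum {n p : ℕ} (hodd : Odd p) (h1 : 4 * n < 3 * p) (h2 : p < 4 * n) (F : ℕ → ℚ) :
    ∑ k ∈ sM n, F k =
      ∑ a ∈ Alow n p, ((F (a + p) + F (4 * n - (a + p))) + (F a + F (4 * n - a))) +
      ∑ c ∈ (Amid n p).filter (fun c => c < 2 * n),
        ((F (c - p) + F (4 * n - (c - p))) + (F c + F (4 * n - c)) + (F (c + p) + F (4 * n - (c + p)))) +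
      (if p ≤ 2 * n then F (2 * n - p) + F (2 * n) + F (2 * n + p) else 0) +
      ∑ k ∈ Finset.Ioo (4 * n - p) p, F k := by
  rw [TwoP_split h1 h2 F, TwoP_low_pair hodd h2 (fun a => F (a + p) + F a),
    TwoP_mid_pair (fun c => F (c - p) + F c + F (c + p))]
  have e1 : ∑ a ∈ Alow n p, (F (a + p) + F a + (F (4 * n - p - a + p) + F (4 * n - p - a))) =
      ∑ a ∈ Alow n p, ((F (a + p) + F (4 * n - (a + p))) + (F a + F (4 * n - a))) := by
    refine Finset.sum_congr rfl fun a ha => ?_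
    simp only [Alow, Finset.mem_filter, Finset.mem_Icc] at ha
    rw [show 4 * n - p - a + p = 4 * n - a by omega, show 4 * n - p - a = 4 * n - (a + p) by omega]
    ring
  have e2 : ∑ c ∈ (Amid n p).filter (fun c => c < 2 * n),
      (F (c - p) + F c + F (c + p) + (F (4 * n - c - p) + F (4 * n - c) + F (4 * n - c + p))) =
      ∑ c ∈ (Amid n p).filter (fun c => c < 2 * n),
        ((F (c - p) + F (4 * n - (c - p))) + (F c + F (4 * n - c)) + (F (c + p) + F (4 * n - (c + p)))) := by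
    refine Finset.sum_congr rfl fun c hc => ?_
    simp only [Amid, Finset.mem_filter, Finset.mem_Icc] at hc
    rw [show 4 * n - c + p = 4 * n - (c - p) by omega, show 4 * n - c - p = 4 * n - (c + p) by omega]
    ring
  rw [e1, e2]
  ring

/-- P2b with the six values -/
theorem split_sum_six {n p : ℕ} (hodd : Odd p) (h1 : 4 * n < 3 * p) (h2 : p < 4 * n) (F : ℕ → ℚ) :
    ∑ k ∈ sM n, F k =
      ∑ a ∈ Alow n p, ((F (a + p) + F (4 * n - (a + p))) + (F a + F (4 * n - a))) +
      ∑ c ∈ (Amid n p).filter (fun c => c < 2 * n),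
        (F (c - p) + F c + F (c + p) + F (4 * n - c + p) + F (4 * n - c) + F (4 * n - c - p)) +
      (if p ≤ 2 * n then F (2 * n - p) + F (2 * n) + F (2 * n + p) else 0) +
      ∑ k ∈ Finset.Ioo (4 * n - p) p, F k := by
  rw [split_sum hodd h1 h2 F]
  have e2 : ∑ c ∈ (Amid n p).filter (fun c => c < 2 * n),
      (F (c - p) + F c + F (c + p) + F (4 * n - c + p) + F (4 * n - c) + F (4 * n - c - p)) =
      ∑ c ∈ (Amid n p).filter (fun c => c < 2 * n),
        ((F (c - p) + F (4 * n - (c - p))) + (F c + F (4 * n - c)) + (F (c + p) + F (4 * n - (c + p)))) := by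
    refine Finset.sum_congr rfl fun c hc => ?_
    simp only [Amid, Finset.mem_filter, Finset.mem_Icc] at hc
    rw [show 4 * n - c + p = 4 * n - (c - p) by omega, show 4 * n - c - p = 4 * n - (c + p) by omega]
    ring
  rw [e2]

end

end Pool.Agent.Run7.h24.T.Two
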